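import Mathlib

open Polynomial Finset

namespace Pool.Agent.Lib.MP_cd75ba_ag

/-- The Wronskian matrix of a finite family of complex polynomials. -/
noncomputable def wr {k : ℕ} (g : Fin k → ℂ[X]) : Matrix (Fin k) (Fin k) ℂ[X] :=
  Matrix.of fun i j => derivative^[(i : ℕ)] (g j)

lemma wr_comb {k : ℕ} (b : Fin k → ℂ[X]) (A : Matrix (Fin k) (Fin k) ℂ) (g : Fin k → ℂ[X])
    (h : ∀ j, g j = ∑ l, A l j • b l) : wr g = wr b * A.map C := by
  ext1 i j
  simp only [wr, Matrix.mul_apply, h j, Matrix.of_apply, Matrix.map_apply]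
  rw [Polynomial.iterate_derivative_sum]
  refine Finset.sum_congr rfl fun l _ => ?_
  rw [Polynomial.iterate_derivative_smul, mul_comm, Polynomial.smul_eq_C_mul]

lemma linearIndependent_of_wr {k : ℕ} (g : Fin k → ℂ[X]) (h : (wr g).det ≠ 0) :
    LinearIndependent ℂ g := by
  rw [Fintype.linearIndependent_iff]
  intro c hc
  have h1 : (wr g).mulVec (fun j => C (c j)) = 0 := by
    ext1 i
    simp only [wr, Matrix.mulVec, dotProduct, Matrix.of_apply, Pi.zero_apply]
    have h2 : derivative^[(i : ℕ)] (∑ j, c j • g j) = 0 := by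
      rw [hc]; simp
    rw [Polynomial.iterate_derivative_sum] at h2
    rw [← h2]
    refine Finset.sum_congr rfl fun l _ => ?_
    rw [Polynomial.iterate_derivative_smul, mul_comm, Polynomial.smul_eq_C_mul]
  have h3 := Matrix.eq_zero_of_mulVec_eq_zero h h1
  intro i
  have h4 := congrFun h3 i
  simpa using h4

lemma coeff_prod_sum {ι : Type*} (s : Finset ι) (f : ι → ℂ[X]) (n : ι → ℕ)
    (h : ∀ i ∈ s, (f i).natDegree ≤ n i) :
    (∏ i ∈ s, f i).natDegree ≤ ∑ i ∈ s, n i ∧
    (∏ i ∈ s, f i).coeff (∑ i ∈ s, n i) = ∏ i ∈ s, (f i).coeff (n i) := by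
  classical
  induction s using Finset.induction_on with
  | empty => simp
  | insert a s ha ih =>
    have ih' := ih (fun i hi => h i (Finset.mem_insert_of_mem hi))
    have h1 := h a (Finset.mem_insert_self a s)
    rw [Finset.prod_insert ha, Finset.sum_insert ha, Finset.prod_insert ha]
    refine ⟨?_, ?_⟩
    · exact (natDegree_mul_le).trans (Nat.add_le_add h1 ih'.1)
    · rw [Polynomial.coeff_mul_add_eq_of_natDegree_le h1 ih'.1, ih'.2]

lemma det_descFactorial_ne_zero {k : ℕ} (n : Fin k → ℕ) (hn : Function.Injective n) :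
    (Matrix.of fun (i j : Fin k) => ((n j).descFactorial (i : ℕ) : ℂ)).det ≠ 0 := by
  have h1 := Matrix.det_eval_matrixOfPolynomials_eq_det_vandermonde (fun j => (n j : ℂ))
    (fun i : Fin k => descPochhammer ℂ (i : ℕ)) (fun i => descPochhammer_natDegree ℂ i)
    (fun i => monic_descPochhammer ℂ i)
  have h2 : (Matrix.vandermonde (fun j => (n j : ℂ))).det ≠ 0 := by
    rw [Matrix.det_vandermonde_ne_zero_iff]
    intro a b hab
    exact hn (by simpa using hab)
  rw [h1, ← Matrix.det_transpose] at h2
  convert h2 using 2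
  ext i j
  simp [Matrix.transpose_apply, descPochhammer_eval_eq_descFactorial]

lemma wr_staircase {k : ℕ} (b : Fin k → ℂ[X]) (hb : ∀ j, b j ≠ 0)
    (hinj : Function.Injective fun j => (b j).natDegree) :
    (wr b).det ≠ 0 ∧ (wr b).det.natDegree + ∑ i : Fin k, (i : ℕ) ≤ ∑ j, (b j).natDegree := by
  set n : Fin k → ℕ := fun j => (b j).natDegree with hn
  set M : Matrix (Fin k) (Fin k) ℂ[X] :=
    Matrix.of fun i j => X ^ (i : ℕ) * wr b i j with hM
  have hMdet : M.det = (∏ i : Fin k, (X : ℂ[X]) ^ (i : ℕ)) * (wr b).det := by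
    rw [hM, Matrix.det_mul_column]
  have hdeg : ∀ i j, (M i j).natDegree ≤ n j := by
    intro i j
    simp only [hM, wr, Matrix.of_apply]
    by_cases hi : (i : ℕ) ≤ (b j).natDegree
    · refine natDegree_mul_le.trans ?_
      rw [natDegree_X_pow]
      have := Polynomial.natDegree_iterate_derivative (b j) i
      simp only [hn]
      omega
    · rw [Polynomial.iterate_derivative_eq_zero (by omega)]
      simp
  have hcoeff : ∀ i j, (M i j).coeff (n j) = ((n j).descFactorial (i : ℕ) : ℂ) * (b j).leadingCoeff := by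
    intro i j
    simp only [hM, wr, Matrix.of_apply]
    by_cases hi : (i : ℕ) ≤ (b j).natDegree
    · obtain ⟨r, hr⟩ := Nat.exists_eq_add_of_le' hi
      have h1 : n j = r + (i : ℕ) := hr
      rw [h1, Polynomial.coeff_X_pow_mul, Polynomial.coeff_iterate_derivative, ← h1, nsmul_eq_mul]
      rfl
    · rw [Polynomial.iterate_derivative_eq_zero (by omega)]
      rw [Nat.descFactorial_of_lt (by simp only [hn]; omega)]
      simp
  have hdetcoeff : M.det.coeff (∑ j, n j) =
      (Matrix.of fun (i j : Fin k) => (M i j).coeff (n j)).det := by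
    rw [Matrix.det_apply', Matrix.det_apply', Polynomial.finsetSum_coeff]
    refine Finset.sum_congr rfl fun σ _ => ?_
    have h1 := (coeff_prod_sum Finset.univ (fun j => M (σ j) j) n (fun j _ => hdeg _ _)).2
    have h2 : (((Equiv.Perm.sign σ : ℤˣ) : ℤ) : ℂ[X]) = C (((Equiv.Perm.sign σ : ℤˣ) : ℤ) : ℂ) := by
      simp
    rw [h2, Polynomial.coeff_C_mul, h1]
    simp
  have hdetcoeff_ne : M.det.coeff (∑ j, n j) ≠ 0 := by
    rw [hdetcoeff]
    have h1 : (Matrix.of fun (i j : Fin k) => (M i j).coeff (n j)) =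
        Matrix.of fun (i j : Fin k) => (b j).leadingCoeff *
          (Matrix.of fun (i j : Fin k) => ((n j).descFactorial (i : ℕ) : ℂ)) i j := by
      ext i j
      simp only [Matrix.of_apply, hcoeff]
      ring
    rw [h1, Matrix.det_mul_row]
    refine mul_ne_zero ?_ (det_descFactorial_ne_zero n hinj)
    exact Finset.prod_ne_zero_iff.mpr fun j _ => leadingCoeff_ne_zero.mpr (hb j)
  have hMne : M.det ≠ 0 := by
    intro h
    rw [h] at hdetcoeff_ne
    simp at hdetcoeff_ne
  have hMdeg : M.det.natDegree ≤ ∑ j, n j := by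
    rw [Matrix.det_apply']
    refine Polynomial.natDegree_sum_le_of_forall_le _ _ fun σ _ => ?_
    have h1 := (coeff_prod_sum Finset.univ (fun j => M (σ j) j) n (fun j _ => hdeg _ _)).1
    refine natDegree_mul_le.trans ?_
    simpa using h1
  have hne : (wr b).det ≠ 0 := by
    intro h
    rw [hMdet, h, mul_zero] at hMne
    exact hMne rfl
  refine ⟨hne, ?_⟩
  have hX : (∏ i : Fin k, (X : ℂ[X]) ^ (i : ℕ)) = X ^ (∑ i : Fin k, (i : ℕ)) := by
    rw [Finset.prod_pow_eq_pow_sum]
  rw [hMdet, hX, natDegree_mul (pow_ne_zero _ X_ne_zero) hne, natDegree_X_pow] at hMdeg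
  rw [add_comm]
  exact hMdeg

lemma staircase (D : ℕ) : ∀ (k : ℕ) (V : Submodule ℂ ℂ[X]), (∀ p ∈ V, p.natDegree ≤ D) →
    Module.finrank ℂ V = k →
    ∃ b : Fin k → ℂ[X], (∀ j, b j ∈ V) ∧ (∀ j, b j ≠ 0) ∧
      StrictMono (fun j => (b j).natDegree) := by
  intro k
  induction k with
  | zero =>
    intro V _ _
    exact ⟨fun j => j.elim0, fun j => j.elim0, fun j => j.elim0, fun j => j.elim0⟩
  | succ k ih =>
    intro V hV hk
    have hfin : FiniteDimensional ℂ V := FiniteDimensional.of_finrank_pos (by omega)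
    set S : Set ℕ := {n | ∃ p ∈ V, p ≠ 0 ∧ p.natDegree = n} with hS
    have hSne : S.Nonempty := by
      have h1 : V ≠ ⊥ := by
        intro h
        rw [h] at hk
        simp at hk
      obtain ⟨p, hp, hp0⟩ := Submodule.exists_mem_ne_zero_of_ne_bot h1
      exact ⟨p.natDegree, p, hp, hp0, rfl⟩
    have hSbdd : BddAbove S := by
      refine ⟨D, ?_⟩
      rintro n ⟨p, hp, _, rfl⟩
      exact hV p hp
    obtain ⟨h, hhV, hh0, hhN⟩ := Nat.sSup_mem hSne hSbdd
    set N := sSup S with hN
    have hmax : ∀ p ∈ V, p.natDegree ≤ N := by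
      intro p hp
      by_cases hp0 : p = 0
      · simp [hp0]
      · exact le_csSup hSbdd ⟨p, hp, hp0, rfl⟩
    set φ : V →ₗ[ℂ] ℂ := (lcoeff ℂ N).domRestrict V with hφ
    have hφsurj : Function.Surjective φ := by
      apply LinearMap.surjective_of_ne_zero
      intro h0
      have h1 : φ ⟨h, hhV⟩ = 0 := by rw [h0]; rfl
      simp only [hφ, LinearMap.domRestrict_apply, lcoeff_apply] at h1
      rw [← hhN] at h1
      exact hh0 (leadingCoeff_eq_zero.mp h1)
    have hker : Module.finrank ℂ (LinearMap.ker φ) = k := by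
      have h1 := LinearMap.finrank_range_add_finrank_ker φ
      rw [LinearMap.range_eq_top.mpr hφsurj] at h1
      simp at h1
      omega
    set V' : Submodule ℂ ℂ[X] := (LinearMap.ker φ).map V.subtype with hV'
    have hV'le : V' ≤ V := Submodule.map_subtype_le _ _
    have hV'coeff : ∀ p ∈ V', p.coeff N = 0 := by
      intro p hp
      obtain ⟨q, hq, rfl⟩ := hp
      exact hq
    have hV'k : Module.finrank ℂ V' = k := by
      rw [hV', Submodule.finrank_map_subtype_eq, hker]
    obtain ⟨b, hb1, hb2, hb3⟩ := ih V' (fun p hp => hV p (hV'le hp)) hV'k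
    refine ⟨Fin.snoc b h, ?_, ?_, ?_⟩
    · intro j
      refine Fin.lastCases ?_ (fun j => ?_) j
      · simpa using hhV
      · simpa using hV'le (hb1 j)
    · intro j
      refine Fin.lastCases ?_ (fun j => ?_) j
      · simpa using hh0
      · simpa using hb2 j
    · have hlt : ∀ j, (b j).natDegree < N := by
        intro j
        refine lt_of_le_of_ne (hmax _ (hV'le (hb1 j))) ?_
        intro h1
        have h2 := hV'coeff _ (hb1 j)
        rw [← h1] at h2
        exact hb2 j (leadingCoeff_eq_zero.mp h2)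
      intro i j hij
      induction j using Fin.lastCases with
      | last =>
        induction i using Fin.lastCases with
        | last => exact absurd hij (lt_irrefl _)
        | cast i =>
          simp only [Fin.snoc_castSucc, Fin.snoc_last]
          rw [hhN]
          exact hlt i
      | cast j =>
        induction i using Fin.lastCases with
        | last => exact absurd hij (by simp [Fin.le_iff_val_le_val])
        | cast i =>
          simp only [Fin.snoc_castSucc]
          exact hb3 (by simpa using hij)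

end Pool.Agent.Lib.MP_cd75ba_ag
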