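import Mathlib
import Pool.Agent.Lib.MP_cd75ba_ag.Wronskian

open Polynomial Finset

namespace Pool.Agent.Lib.MP_cd75ba_ag

lemma prod_dvd_wr {k d : ℕ} (g : Fin k → ℂ[X]) :
    (∏ j, g j ^ (d + 1 - k)) ∣ (wr fun j => g j ^ d).det := by
  have h : ∀ i j : Fin k, ∃ q : ℂ[X], (wr fun j => g j ^ d) i j = g j ^ (d + 1 - k) * q := by
    intro i j
    have h1 : g j ^ (d - (i : ℕ)) ∣ derivative^[(i : ℕ)] (g j ^ d) :=
      pow_sub_dvd_iterate_derivative_pow _ _ _
    have h2 : g j ^ (d + 1 - k) ∣ g j ^ (d - (i : ℕ)) := pow_dvd_pow _ (by have := i.2; omega)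
    exact (h2.trans h1)
  choose q hq using h
  have h3 : (wr fun j => g j ^ d) = Matrix.of fun i j => g j ^ (d + 1 - k) * (Matrix.of q) i j := by
    ext1 i j
    rw [hq i j]
    rfl
  rw [h3, Matrix.det_mul_row]
  exact dvd_mul_right _ _

/-- The key inequality. -/
theorem core {k d e : ℕ} (f : Fin (k + 1) → ℂ[X]) (hdeg : ∀ i, (f i).natDegree = e)
    (hf0 : ∀ i, f i ≠ 0) (hcop : Ideal.span (Set.range f) = ⊤)
    (hind : ∀ i : Fin (k + 1), LinearIndependent ℂ (fun j : Fin k => f (i.succAbove j) ^ d))
    (hdep : ¬ LinearIndependent ℂ (fun j => f j ^ d)) :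
    e * (k + 1) * (d + 1 - k) + k * (k - 1) ≤ k * (e * d) := by
  classical
  set V : Submodule ℂ ℂ[X] := Submodule.span ℂ (Set.range fun j => f j ^ d) with hV
  have hVfin : FiniteDimensional ℂ V := FiniteDimensional.span_of_finite ℂ (Set.finite_range _)
  have hmem : ∀ j, f j ^ d ∈ V := fun j => Submodule.subset_span ⟨j, rfl⟩
  have hVk : Module.finrank ℂ V = k := by
    apply le_antisymm
    · have h1 : (Set.range fun j => f j ^ d).finrank ℂ ≤ Fintype.card (Fin (k + 1)) :=
        finrank_range_le_card _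
      have h2 : (Set.range fun j => f j ^ d).finrank ℂ ≠ Fintype.card (Fin (k + 1)) := by
        intro h
        exact hdep (linearIndependent_iff_card_eq_finrank_span.mpr h.symm)
      rw [Fintype.card_fin] at h1 h2
      have h3 : (Set.range fun j => f j ^ d).finrank ℂ = Module.finrank ℂ V := rfl
      omega
    · have h1 : LinearIndependent ℂ
          (fun j : Fin k => (⟨f ((0 : Fin (k + 1)).succAbove j) ^ d, hmem _⟩ : V)) := by
        apply LinearIndependent.of_comp V.subtype
        exact hind 0
      have h2 := h1.fintype_card_le_finrank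
      simpa using h2
  have hVdeg : ∀ p ∈ V, p.natDegree ≤ e * d := by
    intro p hp
    have h1 : V ≤ degreeLE ℂ ((e * d : ℕ) : WithBot ℕ) := by
      rw [hV, Submodule.span_le]
      rintro _ ⟨j, rfl⟩
      simp only [SetLike.mem_coe, mem_degreeLE]
      refine (degree_le_natDegree).trans ?_
      rw [natDegree_pow, hdeg j, mul_comm]
    have h2 := h1 hp
    rw [mem_degreeLE] at h2
    exact natDegree_le_iff_degree_le.mpr h2
  obtain ⟨b, hb1, hb2, hb3⟩ := staircase (e * d) k V hVdeg hVk
  obtain ⟨hW0, hWdeg⟩ := wr_staircase b hb2 hb3.injective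
  have hbli := linearIndependent_of_wr b hW0
  have hspan : V ≤ Submodule.span ℂ (Set.range b) := by
    have h1 : Submodule.span ℂ (Set.range b) ≤ V := by
      rw [Submodule.span_le]
      rintro _ ⟨j, rfl⟩
      exact hb1 j
    have h2 : Module.finrank ℂ (Submodule.span ℂ (Set.range b)) = k := by
      rw [finrank_span_eq_card hbli, Fintype.card_fin]
    exact (Submodule.eq_of_le_of_finrank_eq h1 (by rw [h2, hVk])).ge
  -- each deleted product divides the Wronskian of `b`
  have hdvd : ∀ i : Fin (k + 1), (∏ j : Fin k, f (i.succAbove j) ^ (d + 1 - k)) ∣ (wr b).det := by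
    intro i
    have h1 : ∀ j : Fin k, ∃ a : Fin k → ℂ, ∑ l, a l • b l = f (i.succAbove j) ^ d := by
      intro j
      exact (Submodule.mem_span_range_iff_exists_fun ℂ).mp (hspan (hmem _))
    choose a ha using h1
    set A : Matrix (Fin k) (Fin k) ℂ := Matrix.of fun l j => a j l with hA
    have h2 : (wr fun j : Fin k => f (i.succAbove j) ^ d) = wr b * A.map C := by
      apply wr_comb
      intro j
      rw [← ha j]
      rfl
    have hdetA : A.det ≠ 0 := by
      intro h0
      obtain ⟨v, hv0, hv⟩ := Matrix.exists_mulVec_eq_zero_iff.mpr h0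
      apply hv0
      have h3 := Fintype.linearIndependent_iff.mp (hind i) v
      funext j
      apply h3
      calc ∑ j, v j • f (i.succAbove j) ^ d = ∑ j, v j • ∑ l, a j l • b l := by
            refine Finset.sum_congr rfl fun j _ => by rw [ha j]
        _ = ∑ l, (A.mulVec v) l • b l := by
            simp only [Finset.smul_sum, Matrix.mulVec, dotProduct, hA, Matrix.of_apply,
              Finset.sum_smul]
            rw [Finset.sum_comm]
            refine Finset.sum_congr rfl fun l _ => Finset.sum_congr rfl fun j _ => ?_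
            rw [smul_smul, mul_comm]
        _ = 0 := by
            rw [hv]
            simp
    have h4 : (wr fun j : Fin k => f (i.succAbove j) ^ d).det = (wr b).det * C A.det := by
      rw [h2, Matrix.det_mul]
      congr 1
      have := (RingHom.map_det (C : ℂ →+* ℂ[X]) A)
      rw [this]
      rfl
    have h5 := prod_dvd_wr (d := d) (fun j : Fin k => f (i.succAbove j))
    rw [h4] at h5
    have h6 : IsUnit (C A.det : ℂ[X]) := isUnit_C.mpr (isUnit_iff_ne_zero.mpr hdetA)
    exact (h6.dvd_mul_right).mp h5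
  set P : ℂ[X] := ∏ i, f i ^ (d + 1 - k) with hP
  have hPdvd : P ∣ (wr b).det := by
    have h1 : ∀ i, P ∣ f i ^ (d + 1 - k) * (wr b).det := by
      intro i
      rw [hP, Fin.prod_univ_succAbove _ i]
      exact mul_dvd_mul_left _ (hdvd i)
    have h2 := Ideal.span_pow_eq_top _ hcop (d + 1 - k)
    have h3 : ∀ q ∈ Ideal.span ((fun x : ℂ[X] => x ^ (d + 1 - k)) '' Set.range f),
        P ∣ q * (wr b).det := by
      intro q hq
      refine Submodule.span_induction ?_ ?_ ?_ ?_ hq
      · rintro _ ⟨_, ⟨i, rfl⟩, rfl⟩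
        exact h1 i
      · simp
      · intro x y _ _ hx hy
        rw [add_mul]
        exact dvd_add hx hy
      · intro c x _ hx
        rw [smul_eq_mul, mul_assoc]
        exact Dvd.dvd.mul_left hx c
    have h4 := h3 1 (by rw [h2]; trivial)
    simpa using h4
  have hPdeg : P.natDegree = (k + 1) * ((d + 1 - k) * e) := by
    rw [hP, natDegree_prod _ _ (fun i _ => pow_ne_zero _ (hf0 i))]
    simp only [natDegree_pow, hdeg, Finset.sum_const, Finset.card_univ, Fintype.card_fin,
      smul_eq_mul]
  have h1 := natDegree_le_of_dvd hPdvd hW0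
  have hsum : ∀ (n : Fin k → ℕ), StrictMono n → (∀ j, n j ≤ e * d) →
      ∑ j, n j + ∑ j : Fin k, (j : ℕ) ≤ k * (e * d) := by
    intro n hn hle
    have h2 : ∀ j : Fin k, n j + (k - 1 - (j : ℕ)) ≤ e * d := by
      intro j
      have key : ∀ t : ℕ, ∀ j : Fin k, (j : ℕ) + t < k → n j + t ≤ e * d := by
        intro t
        induction t with
        | zero => intro j _; simpa using hle j
        | succ t ih =>
          intro j hj
          have h3 := ih ⟨(j : ℕ) + 1, by omega⟩ (by simp only; omega)
          have h4 : n j < n ⟨(j : ℕ) + 1, by omega⟩ := hn (by rw [Fin.lt_def]; simp)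
          omega
      exact key _ j (by have := j.2; omega)
    have h3 : ∑ j : Fin k, (k - 1 - (j : ℕ)) = ∑ j : Fin k, (j : ℕ) := by
      have h4 := Fin.sum_univ_eq_sum_range (fun j => k - 1 - j) k
      have h5 := Fin.sum_univ_eq_sum_range (fun j => j) k
      rw [h4, h5, Finset.sum_range_reflect (fun j => j) k]
    rw [← h3, ← Finset.sum_add_distrib]
    calc ∑ j : Fin k, (n j + (k - 1 - (j : ℕ))) ≤ ∑ j : Fin k, e * d :=
          Finset.sum_le_sum fun j _ => h2 j
      _ = k * (e * d) := by simp
  have h2 := hsum _ hb3 (fun j => hVdeg _ (hb1 j))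
  have h3 : (∑ j : Fin k, (j : ℕ)) * 2 = k * (k - 1) := by
    rw [Fin.sum_univ_eq_sum_range (fun j => j) k, Finset.sum_range_id_mul_two]
  rw [hPdeg] at h1
  have h4 : e * (k + 1) * (d + 1 - k) = (k + 1) * ((d + 1 - k) * e) := by ring
  rw [h4, ← h3]
  omega

end Pool.Agent.Lib.MP_cd75ba_ag
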