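import Mathlib

namespace Pool.Agent.Lib.MP_cd75ba_ag

/-- The five linear forms `z^k A + w + z^(-k) D`. -/
def u (A D w z : ℂ) : Fin 5 → ℂ :=
  ![A + w + D, z * A + w + z ^ 4 * D, z ^ 2 * A + w + z ^ 3 * D, z ^ 3 * A + w + z ^ 2 * D,
    z ^ 4 * A + w + z * D]

lemma quintic_aux (a d w : ℂ) (h : a * d = -w ^ 2) :
    (a + w + d) ^ 5 = 5 * w * (a + w + d) ^ 4 - 15 * w ^ 2 * (a + w + d) ^ 3
      + 25 * w ^ 3 * (a + w + d) ^ 2 - 25 * w ^ 4 * (a + w + d) + 11 * w ^ 5 + a ^ 5 + d ^ 5 := by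
  linear_combination (5 * (a + d) * ((a + d) ^ 2 - a * d + w ^ 2)) * h

lemma quintic (A D w z : ℂ) (hz5 : z ^ 5 = 1) (hAD : A * D = -w ^ 2) (k : Fin 5) :
    (u A D w z k) ^ 5 = 5 * w * (u A D w z k) ^ 4 - 15 * w ^ 2 * (u A D w z k) ^ 3
      + 25 * w ^ 3 * (u A D w z k) ^ 2 - 25 * w ^ 4 * (u A D w z k) + 11 * w ^ 5 + A ^ 5 + D ^ 5 := by
  fin_cases k
  · have h := quintic_aux A D w hAD
    simpa [u] using h
  · have h := quintic_aux (z * A) (z ^ 4 * D) w (by linear_combination z ^ 5 * hAD - w ^ 2 * hz5)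
    have h1 : (z * A) ^ 5 = A ^ 5 := by linear_combination A ^ 5 * hz5
    have h2 : (z ^ 4 * D) ^ 5 = D ^ 5 := by
      have : (z ^ 4 * D) ^ 5 = (z ^ 5) ^ 4 * D ^ 5 := by ring
      rw [this, hz5]; ring
    rw [h1, h2] at h
    simpa [u] using h
  · have h := quintic_aux (z ^ 2 * A) (z ^ 3 * D) w (by linear_combination z ^ 5 * hAD - w ^ 2 * hz5)
    have h1 : (z ^ 2 * A) ^ 5 = A ^ 5 := by
      have : (z ^ 2 * A) ^ 5 = (z ^ 5) ^ 2 * A ^ 5 := by ring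
      rw [this, hz5]; ring
    have h2 : (z ^ 3 * D) ^ 5 = D ^ 5 := by
      have : (z ^ 3 * D) ^ 5 = (z ^ 5) ^ 3 * D ^ 5 := by ring
      rw [this, hz5]; ring
    rw [h1, h2] at h
    simpa [u] using h
  · have h := quintic_aux (z ^ 3 * A) (z ^ 2 * D) w (by linear_combination z ^ 5 * hAD - w ^ 2 * hz5)
    have h1 : (z ^ 3 * A) ^ 5 = A ^ 5 := by
      have : (z ^ 3 * A) ^ 5 = (z ^ 5) ^ 3 * A ^ 5 := by ring
      rw [this, hz5]; ring
    have h2 : (z ^ 2 * D) ^ 5 = D ^ 5 := by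
      have : (z ^ 2 * D) ^ 5 = (z ^ 5) ^ 2 * D ^ 5 := by ring
      rw [this, hz5]; ring
    rw [h1, h2] at h
    simpa [u] using h
  · have h := quintic_aux (z ^ 4 * A) (z * D) w (by linear_combination z ^ 5 * hAD - w ^ 2 * hz5)
    have h1 : (z ^ 4 * A) ^ 5 = A ^ 5 := by
      have : (z ^ 4 * A) ^ 5 = (z ^ 5) ^ 4 * A ^ 5 := by ring
      rw [this, hz5]; ring
    have h2 : (z * D) ^ 5 = D ^ 5 := by linear_combination D ^ 5 * hz5
    rw [h1, h2] at h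
    simpa [u] using h

lemma psum_1 (A D w z : ℂ) (hz : 1 + z + z ^ 2 + z ^ 3 + z ^ 4 = 0) :
    ∑ k, u A D w z k ^ 1 = 5 * w := by
  simp only [u, Fin.sum_univ_five, Matrix.cons_val]
  linear_combination ((1) * D + (1) * A) * hz

lemma psum_2 (A D w z : ℂ) (hz : 1 + z + z ^ 2 + z ^ 3 + z ^ 4 = 0) (hAD : A * D = -w ^ 2) :
    ∑ k, u A D w z k ^ 2 = -5 * w ^ 2 := by
  simp only [u, Fin.sum_univ_five, Matrix.cons_val]
  linear_combination ((2) * D * w + (1) * D^2 + (-1) * D^2 * z + (1) * D^2 * z^2 + (-1) * D^2 * z^3 + (1) * D^2 *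
      z^4 + (2) * A * w + (-8) * A * D + (8) * A * D * z + (1) * A^2 + (-1) * A^2 * z + (1) * A^2
      * z^2 + (-1) * A^2 * z^3 + (1) * A^2 * z^4) * hz + 10 * hAD

lemma psum_3 (A D w z : ℂ) (hz : 1 + z + z ^ 2 + z ^ 3 + z ^ 4 = 0) (hAD : A * D = -w ^ 2) :
    ∑ k, u A D w z k ^ 3 = -25 * w ^ 3 := by
  simp only [u, Fin.sum_univ_five, Matrix.cons_val]
  linear_combination ((3) * D * w^2 + (3) * D^2 * w + (-3) * D^2 * w * z + (3) * D^2 * w * z^2 + (-3) * D^2 * w *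
      z^3 + (3) * D^2 * w * z^4 + (1) * D^3 + (-1) * D^3 * z + (1) * D^3 * z^3 + (-1) * D^3 * z^4
      + (1) * D^3 * z^5 + (-1) * D^3 * z^7 + (1) * D^3 * z^8 + (3) * A * w^2 + (-24) * A * D * w +
      (24) * A * D * w * z + (3) * A * D^2 + (-3) * A * D^2 * z + (3) * A * D^2 * z^5 + (3) * A^2
      * w + (-3) * A^2 * w * z + (3) * A^2 * w * z^2 + (-3) * A^2 * w * z^3 + (3) * A^2 * w * z^4
      + (3) * A^2 * D + (-3) * A^2 * D * z + (3) * A^2 * D * z^5 + (1) * A^3 + (-1) * A^3 * z +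
      (1) * A^3 * z^3 + (-1) * A^3 * z^4 + (1) * A^3 * z^5 + (-1) * A^3 * z^7 + (1) * A^3 * z^8) * hz + 30 * w * hAD

lemma psum_4 (A D w z : ℂ) (hz : 1 + z + z ^ 2 + z ^ 3 + z ^ 4 = 0) (hAD : A * D = -w ^ 2) :
    ∑ k, u A D w z k ^ 4 = -25 * w ^ 4 := by
  simp only [u, Fin.sum_univ_five, Matrix.cons_val]
  linear_combination ((4) * D * w^3 + (6) * D^2 * w^2 + (-6) * D^2 * w^2 * z + (6) * D^2 * w^2 * z^2 + (-6) * D^2
      * w^2 * z^3 + (6) * D^2 * w^2 * z^4 + (4) * D^3 * w + (-4) * D^3 * w * z + (4) * D^3 * w *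
      z^3 + (-4) * D^3 * w * z^4 + (4) * D^3 * w * z^5 + (-4) * D^3 * w * z^7 + (4) * D^3 * w *
      z^8 + (1) * D^4 + (-1) * D^4 * z + (1) * D^4 * z^4 + (-1) * D^4 * z^6 + (1) * D^4 * z^8 +
      (-1) * D^4 * z^11 + (1) * D^4 * z^12 + (4) * A * w^3 + (-48) * A * D * w^2 + (48) * A * D *
      w^2 * z + (12) * A * D^2 * w + (-12) * A * D^2 * w * z + (12) * A * D^2 * w * z^5 + (4) * A
      * D^3 + (-4) * A * D^3 * z + (4) * A * D^3 * z^5 + (-4) * A * D^3 * z^6 + (4) * A * D^3 *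
      z^7 + (-4) * A * D^3 * z^8 + (4) * A * D^3 * z^9 + (6) * A^2 * w^2 + (-6) * A^2 * w^2 * z +
      (6) * A^2 * w^2 * z^2 + (-6) * A^2 * w^2 * z^3 + (6) * A^2 * w^2 * z^4 + (12) * A^2 * D * w
      + (-12) * A^2 * D * w * z + (12) * A^2 * D * w * z^5 + (-24) * A^2 * D^2 + (24) * A^2 * D^2
      * z + (-24) * A^2 * D^2 * z^5 + (24) * A^2 * D^2 * z^6 + (4) * A^3 * w + (-4) * A^3 * w * z
      + (4) * A^3 * w * z^3 + (-4) * A^3 * w * z^4 + (4) * A^3 * w * z^5 + (-4) * A^3 * w * z^7 +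
      (4) * A^3 * w * z^8 + (4) * A^3 * D + (-4) * A^3 * D * z + (4) * A^3 * D * z^5 + (-4) * A^3
      * D * z^6 + (4) * A^3 * D * z^7 + (-4) * A^3 * D * z^8 + (4) * A^3 * D * z^9 + (1) * A^4 +
      (-1) * A^4 * z + (1) * A^4 * z^4 + (-1) * A^4 * z^6 + (1) * A^4 * z^8 + (-1) * A^4 * z^11 +
      (1) * A^4 * z^12) * hz + (60 * w ^ 2 + 30 * (A * D - w ^ 2)) * hAD

/-- Reznick's icosahedral identity for fourteenth powers. -/
theorem psum_14 (A D w z : ℂ) (hz : 1 + z + z ^ 2 + z ^ 3 + z ^ 4 = 0) (hAD : A * D = -w ^ 2) :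
    ∑ k, u A D w z k ^ 14 = -5 ^ 7 * w ^ 14 := by
  have hz5 : z ^ 5 = 1 := by linear_combination (z - 1) * hz
  set p : ℕ → ℂ := fun m => ∑ k, u A D w z k ^ m with hp
  have h0 : p 0 = 5 := by simp [hp]
  have h1 : p 1 = 5 * w := psum_1 A D w z hz
  have h2 : p 2 = -5 * w ^ 2 := psum_2 A D w z hz hAD
  have h3 : p 3 = -25 * w ^ 3 := psum_3 A D w z hz hAD
  have h4 : p 4 = -25 * w ^ 4 := psum_4 A D w z hz hAD
  have hrec : ∀ m, p (m + 5) = 5 * w * p (m + 4) - 15 * w ^ 2 * p (m + 3) + 25 * w ^ 3 * p (m + 2)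
      - 25 * w ^ 4 * p (m + 1) + (11 * w ^ 5 + A ^ 5 + D ^ 5) * p m := by
    intro m
    simp only [hp, Finset.mul_sum]
    rw [← Finset.sum_sub_distrib, ← Finset.sum_add_distrib, ← Finset.sum_sub_distrib,
      ← Finset.sum_add_distrib]
    refine Finset.sum_congr rfl fun k _ => ?_
    have h := quintic A D w z hz5 hAD k
    rw [pow_add, h]
    ring
  have h5 := hrec 0
  have h6 := hrec 1
  have h7 := hrec 2
  have h8 := hrec 3
  have h9 := hrec 4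
  have h10 := hrec 5
  have h11 := hrec 6
  have h12 := hrec 7
  have h13 := hrec 8
  have h14 := hrec 9
  norm_num only at h5 h6 h7 h8 h9 h10 h11 h12 h13 h14
  change p 14 = _
  rw [h0, h1, h2, h3, h4] at h5
  rw [h5, h1, h2, h3, h4] at h6
  rw [h6, h5, h2, h3, h4] at h7
  rw [h7, h6, h5, h3, h4] at h8
  rw [h8, h7, h6, h5, h4] at h9
  rw [h9, h8, h7, h6, h5] at h10
  rw [h10, h9, h8, h7, h6] at h11
  rw [h11, h10, h9, h8, h7] at h12
  rw [h12, h11, h10, h9, h8] at h13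
  rw [h13, h12, h11, h10, h9] at h14
  rw [h14]
  ring

end Pool.Agent.Lib.MP_cd75ba_ag
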