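import Mathlib
import Pool.Agent.Lib.MP_cd75ba_ag.Core

open Polynomial Finset

namespace Pool.Agent.Lib.MP_cd75ba_ag

lemma span_eq_top_of_no_common_root {ι : Type*} [Nonempty ι] (f : ι → ℂ[X]) (hf0 : ∀ i, f i ≠ 0)
    (h : ∀ x : ℂ, ∃ i, (f i).eval x ≠ 0) : Ideal.span (Set.range f) = ⊤ := by
  set I := Ideal.span (Set.range f) with hI
  obtain ⟨g, hg⟩ := (IsPrincipalIdealRing.principal I).principal
  have hg' : I = Ideal.span {g} := hg
  have hdvd : ∀ i, g ∣ f i := by
    intro i
    rw [← Ideal.mem_span_singleton, ← hg']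
    exact Ideal.subset_span ⟨i, rfl⟩
  have hg0 : g ≠ 0 := by
    intro h0
    have i : ι := Classical.arbitrary ι
    have := hdvd i
    rw [h0, zero_dvd_iff] at this
    exact hf0 i this
  have hunit : IsUnit g := by
    by_contra hnu
    have hdeg : g.degree ≠ 0 := by
      intro h0
      exact hnu (isUnit_iff_degree_eq_zero.mpr h0)
    obtain ⟨x, hx⟩ := IsAlgClosed.exists_root g hdeg
    obtain ⟨i, hi⟩ := h x
    apply hi
    obtain ⟨q, hq⟩ := hdvd i
    rw [hq, eval_mul, hx.eq_zero, zero_mul]
  rw [hg']
  exact Ideal.span_singleton_eq_top.mpr hunit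

/-- Core dichotomy: a minimal dependent family of `d`-th powers of polynomials of degree
exactly two, pairwise non-proportional, of size at most six, forces `d ≤ 14`. -/
lemma minimal_case {k d : ℕ} (hk : k ≤ 5) (hd : 15 ≤ d) (f : Fin (k + 1) → ℂ[X])
    (hdeg : ∀ i, (f i).natDegree = 2)
    (hnp : ∀ i j, i ≠ j → ∀ a b : ℂ, C a * f i = C b * f j → a = 0 ∧ b = 0)
    (hind : ∀ i : Fin (k + 1), LinearIndependent ℂ (fun j : Fin k => f (i.succAbove j) ^ d))
    (hdep : ¬ LinearIndependent ℂ (fun j => f j ^ d)) : False := by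
  have hf0 : ∀ i, f i ≠ 0 := by
    intro i h0
    have := hdeg i
    rw [h0] at this
    simp at this
  by_cases hroot : ∀ x : ℂ, ∃ i, (f i).eval x ≠ 0
  · have h1 := core f hdeg hf0 (span_eq_top_of_no_common_root f hf0 hroot) hind hdep
    have : d + 1 - k = d - 15 + (16 - k) := by omega
    rw [this] at h1
    obtain ⟨n, rfl⟩ := Nat.exists_eq_add_of_le hd
    interval_cases k <;> omega
  · push Not at hroot
    obtain ⟨x, hx⟩ := hroot
    have h1 : ∀ i, ∃ q, f i = (X - C x) * q := by
      intro i
      exact dvd_iff_isRoot.mpr (hx i)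
    choose g hg using h1
    have hg0 : ∀ i, g i ≠ 0 := by
      intro i h0
      apply hf0 i
      rw [hg i, h0, mul_zero]
    have hgdeg : ∀ i, (g i).natDegree = 1 := by
      intro i
      have h2 := hdeg i
      rw [hg i, natDegree_mul (X_sub_C_ne_zero x) (hg0 i), natDegree_X_sub_C] at h2
      omega
    -- multiplication by `(X - C x) ^ d` is injective and linear
    set μ : ℂ[X] →ₗ[ℂ] ℂ[X] := LinearMap.mulLeft ℂ ((X - C x) ^ d) with hμ
    have hμinj : Function.Injective μ := by
      intro p q hpq
      simp only [hμ, LinearMap.mulLeft_apply] at hpq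
      exact mul_left_cancel₀ (pow_ne_zero _ (X_sub_C_ne_zero x)) hpq
    have hμg : ∀ i, f i ^ d = μ (g i ^ d) := by
      intro i
      rw [hμ, LinearMap.mulLeft_apply, hg i, mul_pow]
    have hindg : ∀ i : Fin (k + 1), LinearIndependent ℂ (fun j : Fin k => g (i.succAbove j) ^ d) := by
      intro i
      apply LinearIndependent.of_comp μ
      have h2 := hind i
      have h3 : (⇑μ ∘ fun j : Fin k => g (i.succAbove j) ^ d) =
          fun j : Fin k => f (i.succAbove j) ^ d := by
        funext j
        simp only [Function.comp_apply]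
        rw [hμg]
      rw [h3]
      exact h2
    have hdepg : ¬ LinearIndependent ℂ (fun j => g j ^ d) := by
      intro h2
      apply hdep
      have h3 := h2.map' μ (LinearMap.ker_eq_bot.mpr hμinj)
      have h4 : (⇑μ ∘ fun j => g j ^ d) = fun j => f j ^ d := by
        funext j
        simp only [Function.comp_apply]
        rw [hμg]
      rw [h4] at h3
      exact h3
    by_cases hroot2 : ∀ x : ℂ, ∃ i, (g i).eval x ≠ 0
    · have h1 := core g hgdeg hg0 (span_eq_top_of_no_common_root g hg0 hroot2) hindg hdepg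
      obtain ⟨n, rfl⟩ := Nat.exists_eq_add_of_le hd
      interval_cases k <;> omega
    · push Not at hroot2
      obtain ⟨y, hy⟩ := hroot2
      have h5 : ∀ i, ∃ a : ℂ, a ≠ 0 ∧ g i = C a * (X - C y) := by
        intro i
        obtain ⟨q, hq⟩ := dvd_iff_isRoot.mpr (hy i)
        have hq0 : q ≠ 0 := by
          intro h0
          apply hg0 i
          rw [hq, h0, mul_zero]
        have h6 := hgdeg i
        rw [hq, natDegree_mul (X_sub_C_ne_zero y) hq0, natDegree_X_sub_C] at h6
        have h7 : q.natDegree = 0 := by omega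
        rw [natDegree_eq_zero] at h7
        obtain ⟨a, ha⟩ := h7
        refine ⟨a, ?_, ?_⟩
        · intro h0
          apply hq0
          rw [← ha, h0, C_0]
        · rw [hq, ← ha, mul_comm]
      rcases Nat.eq_zero_or_pos k with hk0 | hk0
      · subst hk0
        apply hdep
        have : Subsingleton (Fin (0 + 1)) := inferInstanceAs (Subsingleton (Fin 1))
        exact LinearIndependent.of_subsingleton 0 (pow_ne_zero _ (hf0 0))
      · obtain ⟨a, ha0, ha⟩ := h5 0
        obtain ⟨b, hb0, hb⟩ := h5 ⟨1, by omega⟩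
        have h6 := hnp 0 ⟨1, by omega⟩ (by
          intro h
          have := congrArg Fin.val h
          simp at this) b a (by
          rw [hg 0, hg ⟨1, by omega⟩, ha, hb]
          ring)
        exact hb0 h6.1

/-- `d`-th powers, `15 ≤ d`, of at most six pairwise non-proportional polynomials of degree
exactly two are linearly independent. -/
lemma indep_deg_two {d : ℕ} (hd : 15 ≤ d) (f : Fin 6 → ℂ[X])
    (hdeg : ∀ i, (f i).natDegree = 2)
    (hnp : ∀ i j, i ≠ j → ∀ a b : ℂ, C a * f i = C b * f j → a = 0 ∧ b = 0) :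
    LinearIndependent ℂ (fun i => f i ^ d) := by
  classical
  by_contra hcon
  -- a minimal dependent subset
  set Dep : Finset (Fin 6) → Prop := fun S => ¬ LinearIndepOn ℂ (fun i => f i ^ d) (S : Set (Fin 6))
    with hDep
  have huniv : Dep Finset.univ := by
    simp only [hDep, Finset.coe_univ, linearIndepOn_univ_iff]
    exact hcon
  obtain ⟨S, hS⟩ : ∃ S, Minimal Dep S := by
    exact exists_minimal_of_wellFoundedLT Dep ⟨_, huniv⟩
  have hSne : S.Nonempty := by
    rw [Finset.nonempty_iff_ne_empty]
    intro h0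
    have := hS.prop
    rw [hDep, h0] at this
    simp at this
  obtain ⟨k, hk⟩ : ∃ k, S.card = k + 1 := ⟨S.card - 1, by have := hSne.card_pos; omega⟩
  have hk5 : k ≤ 5 := by
    have := Finset.card_le_univ S
    rw [Fintype.card_fin] at this
    omega
  set φ := S.orderEmbOfFin hk with hφ
  have hφrange : Set.range φ = (S : Set (Fin 6)) := Finset.range_orderEmbOfFin S hk
  apply minimal_case hk5 hd (fun i => f (φ i)) (fun i => hdeg _)
  · intro i j hij a b hab
    exact hnp _ _ (fun h => hij (φ.injective h)) a b hab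
  · intro i
    -- the erased set is independent
    have h1 : ¬ Dep (S.erase (φ i)) := by
      intro h
      have hmem : φ i ∈ S := Finset.orderEmbOfFin_mem S hk i
      have := hS.le_of_le h (Finset.erase_subset _ _)
      exact (Finset.notMem_erase (φ i) S) (this hmem)
    rw [hDep] at h1
    simp only [not_not] at h1
    have h2 : ∀ j : Fin k, φ (i.succAbove j) ∈ ((S.erase (φ i) : Finset (Fin 6)) : Set (Fin 6)) := by
      intro j
      rw [Finset.mem_coe, Finset.mem_erase]
      exact ⟨fun h => Fin.succAbove_ne i j (φ.injective h), Finset.orderEmbOfFin_mem S hk _⟩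
    have h3 := LinearIndependent.comp h1 (fun j : Fin k =>
      (⟨φ (i.succAbove j), h2 j⟩ : ((S.erase (φ i) : Finset (Fin 6)) : Set (Fin 6)))) (by
        intro a b hab
        have h4 : φ (i.succAbove a) = φ (i.succAbove b) := by
          have h5 := congrArg Subtype.val hab
          exact h5
        exact Fin.succAbove_right_injective (φ.injective h4))
    exact h3
  · intro h
    apply hS.prop
    rw [← hφrange]
    exact (linearIndepOn_range_iff φ.injective _).mpr h

lemma reflect_pow' (p : ℂ[X]) (N : ℕ) (hp : p.natDegree ≤ N) (d : ℕ) :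
    reflect (d * N) (p ^ d) = reflect N p ^ d := by
  induction d with
  | zero => simp
  | succ d ih =>
    rw [Nat.succ_mul, pow_succ, reflect_mul _ _ _ hp, ih, pow_succ]
    rw [natDegree_pow]
    exact Nat.mul_le_mul_left d hp

/-- `d`-th powers, `15 ≤ d`, of six pairwise non-proportional complex polynomials of degree at
most two are linearly independent. -/
theorem indep_deg_le_two {d : ℕ} (hd : 15 ≤ d) (f : Fin 6 → ℂ[X])
    (hdeg : ∀ i, (f i).natDegree ≤ 2)
    (hnp : ∀ i j, i ≠ j → ∀ a b : ℂ, C a * f i = C b * f j → a = 0 ∧ b = 0) :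
    LinearIndependent ℂ (fun i => f i ^ d) := by
  have hf0 : ∀ i, f i ≠ 0 := by
    intro i h0
    obtain ⟨j, hj⟩ := exists_ne i
    have := hnp i j hj.symm 1 0 (by rw [h0]; simp)
    exact one_ne_zero this.1
  obtain ⟨x, hx⟩ : ∃ x : ℂ, ∀ i, (f i).eval x ≠ 0 := by
    by_contra hcon
    push Not at hcon
    have h1 : (∏ i, f i) = 0 := by
      apply Polynomial.funext
      intro x
      obtain ⟨i, hi⟩ := hcon x
      rw [eval_prod, eval_zero]
      exact Finset.prod_eq_zero (Finset.mem_univ i) hi
    exact (Finset.prod_ne_zero_iff.mpr fun i _ => hf0 i) h1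
  set T : ℂ[X] → ℂ[X] := fun p => p.comp (X + C x) with hT
  have hTinj : Function.Injective T := by
    intro p q hpq
    have h1 := congrArg (fun r : ℂ[X] => r.comp (X - C x)) hpq
    simpa [hT, comp_assoc] using h1
  have hTdeg : ∀ p, (T p).natDegree = p.natDegree := by
    intro p
    simp only [hT]
    rw [natDegree_comp]
    have : (X + C x : ℂ[X]).natDegree = 1 := natDegree_X_add_C x
    rw [this, mul_one]
  set g : Fin 6 → ℂ[X] := fun i => reflect 2 (T (f i)) with hg
  have hgdeg : ∀ i, (g i).natDegree = 2 := by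
    intro i
    apply natDegree_eq_of_le_of_coeff_ne_zero
    · rw [hg]
      refine (natDegree_reflect_le).trans ?_
      rw [hTdeg]
      simpa using hdeg i
    · simp only [hg, coeff_reflect]
      have : revAt 2 2 = 0 := by rw [revAt_le (le_refl 2)]
      rw [this]
      simp only [hT]
      rw [coeff_zero_eq_eval_zero, eval_comp]
      simpa using hx i
  have hgnp : ∀ i j, i ≠ j → ∀ a b : ℂ, C a * g i = C b * g j → a = 0 ∧ b = 0 := by
    intro i j hij a b hab
    apply hnp i j hij a b
    simp only [hg] at hab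
    rw [← reflect_C_mul, ← reflect_C_mul] at hab
    have h1 := congrArg (reflect 2) hab
    rw [reflect_reflect, reflect_reflect] at h1
    apply hTinj
    simp only [hT] at h1 ⊢
    simpa using h1
  have hgind := indep_deg_two hd g hgdeg hgnp
  rw [Fintype.linearIndependent_iff] at hgind ⊢
  intro c hc
  apply hgind
  have h1 : ∀ i, g i ^ d = reflect (d * 2) (T (f i ^ d)) := by
    intro i
    have h2 : T (f i ^ d) = T (f i) ^ d := by simp [hT]
    rw [h2, reflect_pow' _ _ (by rw [hTdeg]; exact hdeg i)]
  have h3 : ∀ (s : Finset (Fin 6)), ∑ i ∈ s, c i • g i ^ d =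
      reflect (d * 2) (T (∑ i ∈ s, c i • f i ^ d)) := by
    intro s
    induction s using Finset.induction_on with
    | empty => simp [hT]
    | insert a s ha ih =>
      rw [Finset.sum_insert ha, Finset.sum_insert ha, ih, h1]
      have h4 : T (c a • f a ^ d + ∑ i ∈ s, c i • f i ^ d) =
          C (c a) * T (f a ^ d) + T (∑ i ∈ s, c i • f i ^ d) := by
        simp [hT, smul_eq_C_mul]
      rw [h4, reflect_add, reflect_C_mul, smul_eq_C_mul]
  rw [h3, hc]
  simp [hT]

end Pool.Agent.Lib.MP_cd75ba_ag
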